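import Pool.Agent.P.MP_5f84aa_co.G.LRz
import Pool.Agent.P.MP_5f84aa_co.G.LGz
import Pool.Agent.P.MP_5f84aa_co.G.PRR

/-!
Pairwise disjoint closed segments in the plane are illuminated by `(1/2 - δ) n + C` light sources.
-/

namespace Pool.Agent.Results.MP_5f84aa_co.General

open Pool.Agent.P.MP_5f84aa_co.G in
theorem result : ∃ δ : ℝ, 0 < δ ∧ ∃ C : ℝ, ∀ (n : ℕ) (a b : Fin n → Fin 2 → ℝ),
    (Pairwise fun i j => Disjoint (segment ℝ (a i) (b i)) (segment ℝ (a j) (b j))) →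
    ∃ S : Finset (Fin 2 → ℝ), (S.card : ℝ) ≤ (1 / 2 - δ) * n + C ∧
      (∀ x ∈ S, ∀ i, x ∉ segment ℝ (a i) (b i)) ∧
      ∀ i, ∀ q ∈ segment ℝ (a i) (b i), ∃ x ∈ S, ∀ j,
        Disjoint (openSegment ℝ x q) (segment ℝ (a j) (b j)) :=
  final5 go (s_rr GO) s_gr s_gg

end Pool.Agent.Results.MP_5f84aa_co.General
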